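import Pool.Agent.Lib.MP_f4f7c0_an.UFinal

/-! For a generic pair of vector fields on a 3-manifold, every point has a neighbourhood in which
the number of switching points of time-optimal trajectories is bounded. -/

namespace Pool.Agent.Results.MP_f4f7c0_an.UniformSwitching

open Pool.Agent.Lib.MP_f4f7c0_an.St
open scoped Manifold ContDiff

theorem result (M : Type*) [TopologicalSpace M] [T2Space M] [SecondCountableTopology M]
    [ChartedSpace (EuclideanSpace ℝ (Fin 3)) M] [IsManifold (𝓡 3) ∞ M] :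
    ∀ᶠ fg in @residual (VF (EuclideanSpace ℝ (Fin 3)) M × VF (EuclideanSpace ℝ (Fin 3)) M)
        (@instTopologicalSpaceProd _ _ (whitneyTop _ M) (whitneyTop _ M)),
      ∀ q₀ : M, ∃ U ∈ nhds q₀, ∃ k : ℕ, ∀ (q : ℝ → M) (T : ℝ), TimeOptimal fg.1 fg.2 q T →
        Set.MapsTo q (Set.Icc 0 T) U →
        (switchingTimes (EuclideanSpace ℝ (Fin 3)) q T).encard ≤ k :=
  (Pool.Agent.Lib.MP_f4f7c0_an.finalU (M := M)).mono fun _ h q₀ =>
    (h q₀).imp fun _ h => ⟨h.1, h.2.imp fun _ h q T ho =>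
      h q T (Pool.Agent.Lib.MP_f4f7c0_an.st_opt ho)⟩

end Pool.Agent.Results.MP_f4f7c0_an.UniformSwitching
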